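import Mathlib
import Pool.Agent.H8.HypP

set_option autoImplicit false

namespace Pool.Agent.Results.MP_fcf092_an.MonomialTestFails

open Polynomial Pool.Agent.H8.HypP

/-- Physicists' Hermite polynomials. -/
noncomputable def H : ℕ → ℝ[X]
  | 0 => 1
  | n + 1 => C 2 * X * H n - derivative (H n)

/-- The coefficient polynomials. -/
noncomputable def Q : ℕ → ℝ[X]
  | 0 => 1
  | 1 => 0
  | 2 => X ^ 2 - C (1 / 2)
  | 3 => -X
  | 4 => C (1 / 4)
  | _ + 5 => 0

theorem rod (n : ℕ) : iteratedDeriv n (fun y : ℝ => Real.exp (-y ^ 2)) =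
    fun x => (-1) ^ n * (H n).eval x * Real.exp (-x ^ 2) := by
  induction n with
  | zero => funext x; simp [H]
  | succ n ih =>
    rw [iteratedDeriv_succ, ih]
    funext x
    have h1 : HasDerivAt (fun y : ℝ => Real.exp (-y ^ 2)) (Real.exp (-x ^ 2) * (-(2 * x))) x := by
      have := ((hasDerivAt_pow 2 x).neg).exp
      simpa using this
    have h2 := (((H n).hasDerivAt x).const_mul ((-1 : ℝ) ^ n)).mul h1
    have h3 : deriv (fun x => (-1) ^ n * (H n).eval x * Real.exp (-x ^ 2)) x = _ := h2.deriv
    rw [h3]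
    simp only [H, eval_sub, eval_mul, eval_C, eval_X, pow_succ]
    ring

/-- The Hermite operator. -/
noncomputable def L (p : ℝ[X]) : ℝ[X] := X * derivative p - C (1 / 2) * derivative (derivative p)

theorem ode (n : ℕ) : derivative (derivative (H n)) = C 2 * X * derivative (H n) -
    C (2 * n : ℝ) * H n := by
  induction n with
  | zero => simp [H]
  | succ n ih =>
    have d1 : derivative (H (n + 1)) = C (2 * (n + 1) : ℝ) * H n := by
      simp only [H, derivative_sub, derivative_mul, derivative_C, derivative_X, ih, zero_mul,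
        zero_add, mul_one, C_mul, C_add, C_1]
      ring
    rw [d1]
    simp only [H, derivative_mul, derivative_C, zero_mul, zero_add]
    push_cast
    simp only [C_mul, C_add, C_1]
    ring

theorem sq_real {z : ℂ} {w : ℝ} (hw : 0 ≤ w) (h : z ^ 2 = w) : z.im = 0 := by
  have h1 := congrArg Complex.re h
  have h2 := congrArg Complex.im h
  simp [pow_two] at h1 h2
  by_contra hy
  have : z.re = 0 := by
    have : z.im * z.re = 0 := by linarith
    exact (mul_eq_zero.1 this).resolve_left hy
  rw [this] at h1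
  have := mul_self_pos.2 hy
  linarith

theorem biq (a b c : ℝ) (ha : 0 < a) (hb : 0 ≤ b) (hc : 0 ≤ c) (h : 4 * a * c ≤ b ^ 2) (z : ℂ)
    (hz : (a : ℂ) * z ^ 4 - b * z ^ 2 + c = 0) : z.im = 0 := by
  have h1 := quad_real a (-b) c (by rw [neg_sq]; exact h) (Or.inl ha.ne') (z ^ 2) (by
    push_cast; linear_combination hz)
  have e : z ^ 2 = ((z ^ 2).re : ℂ) := Complex.ext (by simp only [Complex.ofReal_re])
    (by rw [Complex.ofReal_im]; exact h1)
  set w := (z ^ 2).re with hw
  refine sq_real (w := w) ?_ e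
  have h2 : (a : ℂ) * (w : ℂ) ^ 2 - b * w + c = 0 := by
    rw [← e]; linear_combination hz
  have h3 : a * w ^ 2 - b * w + c = 0 := by exact_mod_cast h2
  by_contra hneg
  push Not at hneg
  nlinarith [mul_pos ha (mul_pos_of_neg_of_neg hneg hneg), mul_nonneg hb (neg_nonneg.2 hneg.le)]

theorem result :
    ∃ (H : ℕ → ℝ[X]) (γ : ℕ → ℝ) (Q : ℕ → ℝ[X]),
      (∀ (n : ℕ) (x : ℝ), (H n).eval x =
        (-1) ^ n * Real.exp (x ^ 2) * iteratedDeriv n (fun y : ℝ => Real.exp (-y ^ 2)) x) ∧
      (∀ k, 5 ≤ k → Q k = 0) ∧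
      (∀ n, ∑ k ∈ Finset.range 5, Q k * derivative^[k] (H n) = γ n • H n) ∧
      (∀ n, 0 < γ n) ∧ Monotone γ ∧
      (∀ (n : ℕ) (z : ℂ), aeval z (∑ k ∈ Finset.range 5,
        C (1 / 2 ^ k : ℝ) * Q k * derivative^[k] (X ^ n : ℝ[X])) = 0 → z.im = 0) ∧
      ∃ p : ℝ[X], (∀ z : ℂ, aeval z p = 0 → z.im = 0) ∧
        (∑ k ∈ Finset.range 5, C (1 / 2 ^ k : ℝ) * Q k * derivative^[k] p) ≠ 0 ∧
        ∃ z : ℂ, aeval z (∑ k ∈ Finset.range 5,
          C (1 / 2 ^ k : ℝ) * Q k * derivative^[k] p) = 0 ∧ z.im ≠ 0 := by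
  refine ⟨H, fun n => 1 + n * (n - 1), Q, ?_, ?_, ?_, ?_, ?_, ?_, (X + C 2) ^ 2, ?_, ?_, ?_⟩
  · intro n x
    rw [rod]
    have h1 : Real.exp (x ^ 2) * Real.exp (-x ^ 2) = 1 := by rw [← Real.exp_add]; simp
    have h2 : ((-1 : ℝ) ^ n) * (-1) ^ n = 1 := by rw [← mul_pow]; simp
    calc (H n).eval x = ((-1) ^ n * (-1) ^ n) * (Real.exp (x ^ 2) * Real.exp (-x ^ 2)) *
          (H n).eval x := by rw [h1, h2]; ring
      _ = _ := by ring
  · intro k hk
    obtain ⟨j, rfl⟩ := Nat.exists_eq_add_of_le' hk
    rfl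
  · intro n
    have o := ode n
    have o3 := congrArg derivative o
    have o4 := congrArg derivative o3
    simp only [derivative_sub, derivative_mul, derivative_C, derivative_X, zero_mul, zero_add,
      mul_one, derivative_add] at o3 o4
    simp only [Finset.sum_range_succ, Finset.sum_range_zero, Q, Function.iterate_succ_apply',
      Function.iterate_zero_apply, zero_add]
    apply Polynomial.funext
    intro x
    have e2 := congrArg (eval x) o
    have e3 := congrArg (eval x) o3
    have e4 := congrArg (eval x) o4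
    simp only [eval_add, eval_sub, eval_mul, eval_C, eval_X, eval_pow, eval_neg, eval_one,
      eval_zero, eval_smul, smul_eq_mul] at e2 e3 e4 ⊢
    rw [e4, e3, e2]
    ring
  · intro n
    rcases n with _ | n
    · simp
    · push_cast
      have : (0 : ℝ) ≤ n := Nat.cast_nonneg n
      nlinarith
  · refine monotone_nat_of_le_succ fun n => ?_
    push_cast
    have : (0 : ℝ) ≤ n := Nat.cast_nonneg n
    nlinarith
  · intro n z hz
    simp only [Finset.sum_range_succ, Finset.sum_range_zero, Q, iterate_derivative_X_pow_eq_smul,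
      map_add, map_mul, map_smul, map_pow, map_sub, map_neg, aeval_C, aeval_X, map_one, map_zero,
      Complex.real_smul, Complex.coe_algebraMap, nsmul_eq_mul] at hz
    rcases n with _ | _ | _ | _ | m
    · simp at hz
    · simp at hz
      simp [hz]
    · refine sq_real (w := 1 / 6) (by norm_num) ?_
      simp [Nat.descFactorial] at hz
      push_cast
      linear_combination (2 / 3 : ℂ) * hz
    · simp [Nat.descFactorial] at hz
      by_cases h0 : z = 0
      · simp [h0]
      · refine sq_real (w := 3 / 5) (by norm_num) ?_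
        apply mul_left_cancel₀ h0
        push_cast
        linear_combination (2 / 5 : ℂ) * hz
    · by_cases h0 : z = 0
      · simp [h0]
      have hm : (0 : ℝ) ≤ m := Nat.cast_nonneg m
      refine biq (1 + (m + 4) * (m + 3) / 4) ((m + 4) * (m + 3) ^ 2 / 8)
        ((m + 4) * (m + 3) * (m + 2) * (m + 1) / 64) (by positivity) (by positivity)
        (by positivity) ?_ z ?_
      · have : 0 ≤ (m + 4) * (m + 3) * (3 * (m : ℝ) ^ 3 + 24 * m ^ 2 + 73 * m + 76) := by
          positivity
        nlinarith
      · apply mul_left_cancel₀ (pow_ne_zero m h0)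
        simp only [Nat.descFactorial, Nat.add_sub_cancel, Nat.sub_zero,
          show m + 1 + 1 + 1 + 1 - 2 = m + 2 by omega, show m + 1 + 1 + 1 + 1 - 3 = m + 1 by omega,
          show m + 1 + 1 + 1 + 1 - 4 = m by omega] at hz
        push_cast at hz ⊢
        linear_combination hz
  · intro z hz
    simp only [map_pow, map_add, aeval_X, aeval_C, Complex.coe_algebraMap] at hz
    have := congrArg Complex.im (pow_eq_zero_iff (two_ne_zero) |>.1 hz)
    simpa using this
  · intro h
    have := congrArg (eval 0) h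
    simp [Finset.sum_range_succ, Q, Function.iterate_succ_apply', derivative_pow] at this
    norm_num at this
  · refine ⟨⟨-4 / 3, Real.sqrt (13 / 18)⟩, ?_, by positivity⟩
    have e : (∑ k ∈ Finset.range 5, C (1 / 2 ^ k : ℝ) * Q k *
        derivative^[k] ((X + C 2) ^ 2 : ℝ[X])) = C (3 / 2) * X ^ 2 + C 4 * X + C (15 / 4) := by
      apply Polynomial.funext
      intro x
      simp [Finset.sum_range_succ, Q, Function.iterate_succ_apply', derivative_pow]
      ring
    rw [e]
    have hs := Real.mul_self_sqrt (show (0 : ℝ) ≤ 13 / 18 by norm_num)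
    simp only [map_add, map_mul, map_pow, aeval_C, aeval_X, Complex.coe_algebraMap]
    generalize Real.sqrt (13 / 18) = s at hs
    apply Complex.ext
    · simp [pow_two]
      linarith
    · simp [pow_two]
      ring

end Pool.Agent.Results.MP_fcf092_an.MonomialTestFails
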